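import Pool.Agent.W594.Herm3

set_option autoImplicit false

/-!
# Definite hermitian forms over `ℤ[t,t⁻¹]`: infinitely many classes in every rank `c ≥ 2`

`conjT A` (the conjugate transpose `A(t⁻¹)ᵀ`) and `Isometric A B` (some `U` of unit determinant
has `conjT U * A * U = B`) are defined in `Pool.Agent.W594.Herm3`.
-/

namespace Pool.Agent.Results.MP_64c4e2_gt.DefiniteForms

open LaurentPolynomial Matrix Pool.Agent.W594.Herm

/-- `A` is the Gram matrix of a nonsingular hermitian form over `ℤ[t,t⁻¹]`. -/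
def IsNonsingularHermitian {n : Type*} [Fintype n] [DecidableEq n]
    (A : Matrix n n ℤ[T;T⁻¹]) : Prop :=
  conjT A = A ∧ IsUnit A.det

/-- The integral matrix `A(1)`. -/
noncomputable def atOne {n : Type*} (A : Matrix n n ℤ[T;T⁻¹]) : Matrix n n ℤ :=
  A.map (eval₂ (RingHom.id ℤ) 1)

/-- The integral symmetric forms with Gram matrices `A` and `B` are isometric. -/
def IntIsometric {n : Type*} [Fintype n] [DecidableEq n] (A B : Matrix n n ℤ) : Prop :=
  ∃ Q : Matrix n n ℤ, IsUnit Q.det ∧ Qᵀ * A * Q = B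

/-- The factor `(t - 1)(t⁻¹ - 1)`. -/
noncomputable def rho : ℤ[T;T⁻¹] := (T 1 - 1) * (T (-1) - 1)

theorem rho_ne_zero : rho ≠ 0 := by
  intro h
  have h1 := congrArg (fun f : ℤ[T;T⁻¹] => f.coeff 1) h
  have h2 : rho = 2 - T 1 - T (-1) := by
    unfold rho
    have : (T 1 : ℤ[T;T⁻¹]) * T (-1) = 1 := by rw [← T_add]; simp
    linear_combination this
  rw [h2] at h1
  have h3 : (2 : ℤ[T;T⁻¹]) = C 2 := (map_ofNat C 2).symm
  rw [h3] at h1
  simp only [AddMonoidAlgebra.coeff_sub, Finsupp.sub_apply, C_apply, T_apply] at h1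
  simp at h1

theorem isometric_of_smul {n : Type*} [Fintype n] [DecidableEq n] {A B : Matrix n n ℤ[T;T⁻¹]}
    {a : ℤ[T;T⁻¹]} (ha : a ≠ 0) (h : Isometric (a • A) (a • B)) : Isometric A B := by
  obtain ⟨U, hU, h⟩ := h
  refine ⟨U, hU, ?_⟩
  rw [Matrix.mul_smul, Matrix.smul_mul] at h
  exact smul_right_injective _ ha h

theorem isometric_submatrix {m n : Type*} [Fintype n] [DecidableEq n] [Fintype m] [DecidableEq m]
    (e : m ≃ n) {A B : Matrix m m ℤ[T;T⁻¹]}
    (h : Isometric (A.submatrix e.symm e.symm) (B.submatrix e.symm e.symm)) : Isometric A B := by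
  obtain ⟨U, hU, h⟩ := h
  refine ⟨U.submatrix e e, by rwa [Matrix.det_submatrix_equiv_self], ?_⟩
  have h1 : conjT (U.submatrix e e) = (conjT U).submatrix e e := rfl
  have h2 : A = (A.submatrix e.symm e.symm).submatrix e e := by simp
  have h3 : B = (B.submatrix e.symm e.symm).submatrix e e := by simp
  rw [h1, h2, h3, Matrix.submatrix_mul_equiv, Matrix.submatrix_mul_equiv, h]

/-- **Theorem.** Let `c ≥ 2` and `ε = ±1`. There are infinitely many pairwise non-isometric forms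
`λ = (t - 1)(t⁻¹ - 1) λ'` of rank `c` over `ℤ[t,t⁻¹]`, none of them isometric to the standard form
`λ = ε (t - 1)(t⁻¹ - 1) I_c`, for which `λ'` is hermitian and nonsingular with
`λ'(1)` isometric to `ε I_c` over `ℤ`. -/
theorem result (c : ℕ) (hc : 2 ≤ c) (ε : ℤ) (hε : ε = 1 ∨ ε = -1) :
    ∃ A : ℕ → Matrix (Fin c) (Fin c) ℤ[T;T⁻¹],
      (∀ k, IsNonsingularHermitian (A k) ∧ IntIsometric (atOne (A k)) (ε • 1) ∧
        ¬ Isometric (rho • A k) (rho • (ε • 1))) ∧
      ∀ i j, Isometric (rho • A i) (rho • A j) → i = j := by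
  obtain ⟨d, rfl⟩ : ∃ d, c = 2 + d := ⟨c - 2, by omega⟩
  set e : Fin 2 ⊕ Fin d ≃ Fin (2 + d) := finSumFinEquiv with he
  have hεu : IsUnit ε := by
    rcases hε with rfl | rfl
    · exact isUnit_one
    · exact isUnit_one.neg
  have hε0 : ((ε : ℤ) : ℤ[T;T⁻¹]) ≠ 0 := by
    rcases hε with rfl | rfl <;> simp
  have hsm : ∀ M : Matrix (Fin (2 + d)) (Fin (2 + d)) ℤ[T;T⁻¹],
      (ε • M) = ((ε : ℤ) : ℤ[T;T⁻¹]) • M := by
    intro M
    apply Matrix.ext
    intro i j
    rw [Matrix.smul_apply, Matrix.smul_apply, zsmul_eq_mul, smul_eq_mul]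
  have hcast : ∀ i j : ℕ, (((11 ^ i : ℕ) : ℤ) : ZMod (11 ^ j)) = ((11 ^ i : ℕ) : ZMod (11 ^ j)) :=
    fun i j => Int.cast_natCast _
  -- the obstruction in the form needed
  have hpow : ∀ i j : ℕ, i < j → ∀ a : ℕ, 0 < a → a ≤ 10 →
      (a : ZMod (11 ^ j)) * (((11 ^ i : ℕ) : ℤ) : ZMod (11 ^ j)) ≠ 0 := by
    intro i j hij a ha ha' h
    rw [hcast, ← Nat.cast_mul, ZMod.natCast_eq_zero_iff] at h
    have h1 : 11 ^ (i + 1) ∣ a * 11 ^ i := (pow_dvd_pow 11 hij).trans h
    rw [pow_succ, mul_comm] at h1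
    have h2 : 11 ∣ a := (Nat.mul_dvd_mul_iff_right (pow_pos (by norm_num) i)).1 h1
    have := Nat.le_of_dvd ha h2
    omega
  have hlt : ∀ i j : ℕ, i < j → ¬ Isometric (Am d ((11 ^ i : ℕ) : ℤ)) (Am d ((11 ^ j : ℕ) : ℤ)) := by
    intro i j hij
    have : NeZero (11 ^ j) := ⟨by positivity⟩
    exact not_isometric (11 ^ j) _ (hpow i j hij) d _ (Pm _ d) (Pm' _ d) (Pm_mul _ d)
      (map_Am_of_zero _ d _ (by rw [hcast]; exact ZMod.natCast_self _))
  have hone : ∀ i : ℕ, ¬ Isometric (Am d ((11 ^ i : ℕ) : ℤ)) 1 := by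
    intro i
    have : NeZero (11 ^ (i + 1)) := ⟨by positivity⟩
    refine not_isometric (11 ^ (i + 1)) _ (hpow i (i + 1) (Nat.lt_succ_self i)) d _ 1 1
      (one_mul 1) ?_
    rw [Matrix.map_one _ (map_zero _) (map_one _), conjG_one, one_mul]
  set A : ℕ → Matrix (Fin (2 + d)) (Fin (2 + d)) ℤ[T;T⁻¹] :=
    fun k => ε • (Am d ((11 ^ k : ℕ) : ℤ)).submatrix e.symm e.symm with hA
  have hred : ∀ k (F : Matrix (Fin 2 ⊕ Fin d) (Fin 2 ⊕ Fin d) ℤ[T;T⁻¹]),
      Isometric (rho • A k) (rho • (ε • F.submatrix e.symm e.symm)) →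
        Isometric (Am d ((11 ^ k : ℕ) : ℤ)) F := by
    intro k F h
    have h1 := isometric_of_smul rho_ne_zero h
    rw [hA, hsm] at h1
    simp only at h1
    rw [hsm] at h1
    exact isometric_submatrix e (isometric_of_smul hε0 h1)
  refine ⟨A, fun k => ⟨⟨?_, ?_⟩, ?_, ?_⟩, ?_⟩
  · -- hermitian
    have h1 : conjT (A k) = ε • (conjT (Am d ((11 ^ k : ℕ) : ℤ))).submatrix e.symm e.symm := by
      apply Matrix.ext
      intro i j
      simp only [hA, conjT, Matrix.transpose_apply, Matrix.map_apply, Matrix.smul_apply,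
        Matrix.submatrix_apply, map_zsmul]
    rw [h1, conjT_Am]
  · -- nonsingular
    simp only [hA]
    rw [hsm, Matrix.det_smul, Matrix.det_submatrix_equiv_self, det_Am, mul_one]
    exact (hεu.map (Int.castRingHom ℤ[T;T⁻¹])).pow _
  · -- the value at one
    have hat : atOne (A k) = ε • (Matrix.fromBlocks !![25, 7; 7, 2] 0 0
        (1 : Matrix (Fin d) (Fin d) ℤ)).submatrix e.symm e.symm := by
      have h1 : atOne (A k) = ε • ((Am d ((11 ^ k : ℕ) : ℤ)).map
          (eval₂ (RingHom.id ℤ) 1)).submatrix e.symm e.symm := by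
        apply Matrix.ext
        intro i j
        simp only [hA, atOne, Matrix.map_apply, Matrix.smul_apply,
          Matrix.submatrix_apply, map_zsmul]
      rw [h1]
      congr 2
      unfold Am
      rw [Matrix.fromBlocks_map]
      congr 1
      · apply Matrix.ext
        intro a b
        unfold blk
        have f25 : eval₂ (RingHom.id ℤ) 1 (25 : ℤ[T;T⁻¹]) = 25 := map_ofNat _ 25
        have f7 : eval₂ (RingHom.id ℤ) 1 (7 : ℤ[T;T⁻¹]) = 7 := map_ofNat _ 7
        have f10 : eval₂ (RingHom.id ℤ) 1 (10 : ℤ[T;T⁻¹]) = 10 := map_ofNat _ 10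
        have f4 : eval₂ (RingHom.id ℤ) 1 (4 : ℤ[T;T⁻¹]) = 4 := map_ofNat _ 4
        fin_cases a <;> fin_cases b <;> simp [f25, f7, f10, f4]
      · apply Matrix.ext; intro a b; simp
      · apply Matrix.ext; intro a b; simp
      · exact Matrix.map_one _ (map_zero _) (map_one _)
    rw [hat]
    refine ⟨(Matrix.fromBlocks !![-1, 1; 4, -3] 0 0 (1 : Matrix (Fin d) (Fin d) ℤ)).submatrix
      e.symm e.symm, ?_, ?_⟩
    · rw [Matrix.det_submatrix_equiv_self, Matrix.det_fromBlocks_zero₂₁, Matrix.det_fin_two_of,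
        Matrix.det_one]
      norm_num
    · rw [Matrix.transpose_submatrix, Matrix.mul_smul, Matrix.smul_mul,
        Matrix.submatrix_mul_equiv, Matrix.submatrix_mul_equiv]
      congr 1
      rw [Matrix.fromBlocks_transpose, Matrix.fromBlocks_multiply, Matrix.fromBlocks_multiply]
      have : (1 : Matrix (Fin (2 + d)) (Fin (2 + d)) ℤ) =
          (1 : Matrix (Fin 2 ⊕ Fin d) (Fin 2 ⊕ Fin d) ℤ).submatrix e.symm e.symm := by simp
      rw [this, ← Matrix.fromBlocks_one]
      congr 1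
      congr 1
      · apply Matrix.ext
        intro a b
        fin_cases a <;> fin_cases b <;> simp [Matrix.mul_apply, Fin.sum_univ_two]
      · simp
      · simp
      · simp
  · -- not standard
    intro h
    refine hone k (hred k 1 ?_)
    have : (1 : Matrix (Fin (2 + d)) (Fin (2 + d)) ℤ[T;T⁻¹]) =
          (1 : Matrix (Fin 2 ⊕ Fin d) (Fin 2 ⊕ Fin d) ℤ[T;T⁻¹]).submatrix e.symm e.symm := by
      rw [Matrix.submatrix_one_equiv]
    rwa [← this]
  · -- pairwise
    intro i j h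
    have h1 := hred i _ h
    rcases lt_trichotomy i j with h' | h' | h'
    · exact absurd h1 (hlt i j h')
    · exact h'
    · exact absurd h1.symm (hlt j i h')

end Pool.Agent.Results.MP_64c4e2_gt.DefiniteForms
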